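import Pool.Agent.MWP.Stmts

/-!
# Block MWP, row PEN: the pentagon
-/

set_option autoImplicit false

namespace Pool.Agent.MWP.H36

open Pool.Agent.Helper14_MV Pool.Agent.Helper2_MV Pool.Agent.MWF

theorem split_unique : ∀ (a b c d : List ℕ), 0 ∉ a → 0 ∉ b → a ++ 0 :: c = b ++ 0 :: d →
    a = b ∧ c = d
  | [], [], c, d, _, _, h => by
    simp only [List.nil_append, List.cons.injEq, true_and] at h
    exact ⟨rfl, h⟩
  | [], y :: b, c, d, _, hb, h => by
    simp only [List.nil_append, List.cons_append, List.cons.injEq] at h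
    exact absurd (List.mem_cons.2 (Or.inl h.1)) hb
  | x :: a, [], c, d, ha, _, h => by
    simp only [List.nil_append, List.cons_append, List.cons.injEq] at h
    exact absurd (List.mem_cons.2 (Or.inl h.1.symm)) ha
  | x :: a, y :: b, c, d, ha, hb, h => by
    simp only [List.cons_append, List.cons.injEq] at h
    obtain ⟨rfl, h⟩ := h
    obtain ⟨rfl, rfl⟩ := split_unique a b c d (fun h' => ha (List.mem_cons_of_mem _ h'))
      (fun h' => hb (List.mem_cons_of_mem _ h')) h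
    exact ⟨rfl, rfl⟩

theorem mem_V7 {v : List ℕ} {c : ℕ} (h : c ∈ V7 v) : 7 ≤ c ∧ [c, c].Sublist (V7 v) := by
  unfold V7 dbl at h
  obtain ⟨d, hd, hc⟩ := List.mem_flatMap.1 h
  obtain ⟨e, he, rfl⟩ := List.mem_map.1 hd
  have hc' : c = e + 7 := by
    simpa using hc
  subst hc'
  refine ⟨by omega, ?_⟩
  unfold V7 dbl
  exact pair_flatMap.2 (Or.inl ⟨e + 7, hd, List.Sublist.refl _⟩)

theorem zero_c0 (v : List ℕ) : 0 ∉ c0 v := by
  intro h
  unfold c0 at h
  rw [List.mem_append, List.mem_append] at h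
  rcases h with (h | h) | h
  · simp at h
  · have := (mem_V7 h).1
    omega
  · simp at h

theorem bas_c0 (v w1 : List ℕ) (h : ∀ c, c ∈ w1 ↔ (1 ≤ c ∧ c ≤ 4)) : Bas v (c0 v) w1 := by
  refine ⟨fun c => Iff.rfl, h, fun c d _ => Iff.rfl, fun c h5 hc => ?_⟩
  unfold c0 at hc ⊢
  rw [List.mem_append, List.mem_append] at hc
  rw [pair_append, pair_append]
  rcases hc with (hc | hc) | hc
  · have : c = 5 := by
      simp only [List.mem_cons, List.not_mem_nil, or_false] at hc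
      omega
    subst this
    exact Or.inl (Or.inl (by decide))
  · exact Or.inl (Or.inr (Or.inr (mem_V7 hc).2))
  · have : c = 6 := by
      simp only [List.mem_cons, List.not_mem_nil, or_false] at hc
      omega
    subst this
    exact Or.inr (Or.inr (by decide))

theorem mem_ro (o : Bool) (u : List ℕ) (c : ℕ) : c ∈ ro o u ↔ c ∈ u := by
  unfold ro
  cases o
  · simp
  · simp

theorem ck_s (o : Bool) : Ck o (ro o [2, 4, 1, 3]) := by
  unfold Ck Bf ro
  cases o
  · decide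
  · decide

theorem ck_t (o : Bool) : ¬ Ck o (ro o [4, 1, 2, 3]) := by
  unfold Ck Bf ro
  cases o
  · decide
  · decide

theorem key (hCLS : ClsStmt) (hKPR : KprStmt) (β : FIC) (hβ : Bt β) (hm : ModF β) (v : List ℕ)
    (h : ℕ) (hh : Hgt v h) (h2 : 2 ≤ h) (o : Bool) (hn : if o then ¬ QV β v else ¬ PV β v) :
    False := by
  have hv : v ≠ [] := by
    rintro rfl
    obtain ⟨⟨T, hT, hl⟩, _⟩ := hh
    rcases T with _ | ⟨x, T⟩
    · simp at hl
      omega
    · exact absurd (hT.1 x List.mem_cons_self) (by simp)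
  have K := hKPR β hβ v o hv hn
  obtain ⟨c1, c2, c3, c4, c5⟩ := hCLS v h hh h2 o
  have bκ : β ≤ gaml (KS v (Ck o)) := le_gaml (fun u w huw => (K u w huw).2.2)
  have bτ : β ≤ gaml (KS v (Cc o)) := le_gaml (fun u w huw => (K u w huw).2.1)
  have bσ : β ≤ gaml (KS v (Cb o)) := le_gaml (fun u w huw => (K u w huw).1)
  have hP : KS v (Ck o) (Sw v (ro o [4, 1, 2, 3])) := by
    refine pent (ρ := FIC.inf (gaml (KS v (Ck o))) (gaml (KS v (Cc o))))
      (σ := gaml (KS v (Cb o))) (τ := gaml (KS v (Cc o))) (P := KS v (Ck o))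
      (u := Sw v (ro o [2, 4, 1, 3])) hm (FIC.le_inf bκ bτ) bσ bτ (FIC.inf_le_right _ _)
      ?_ ?_ ?_ c5 ?_
    · intro u w huw hu
      exact (gaml_keep huw.1).1 hu
    · intro u w h1 h3 hu
      obtain ⟨w0, w1, hw, hb, hc⟩ := hu
      have k1 : KS v (Cb o) u := ⟨w0, w1, hw, hb, hc.1, hc.2.2⟩
      have k2 : KS v (Cc o) u := ⟨w0, w1, hw, hb, hc.2.1, hc.2.2⟩
      obtain ⟨a0, a1, ha, hab, hac⟩ := (gaml_keep h1).1 k1
      obtain ⟨b0, b1, hb', hbb, hbc⟩ := (gaml_keep h3).1 k2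
      have e0 : 0 ∉ a0 := fun h' => zero_c0 v ((hab.m0 0).1 h')
      have e1 : 0 ∉ b0 := fun h' => zero_c0 v ((hbb.m0 0).1 h')
      obtain ⟨rfl, rfl⟩ := split_unique a0 b0 a1 b1 e0 e1 (ha.symm.trans hb')
      exact ⟨a0, a1, ha, hab, hac.1, hbc.1, hac.2⟩
    · have s1 : (FIC.sup (FIC.inf (gaml (KS v (Ck o))) (gaml (KS v (Cc o))))
          (gaml (KS v (Cb o)))).r (FreeMonoid.ofList (Sw v (ro o [2, 4, 1, 3])))
          (FreeMonoid.ofList (Sw v (ro o [2, 3, 4, 1]))) := FIC.le_sup_right _ _ _ _ c1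
      have s2 : (FIC.sup (FIC.inf (gaml (KS v (Ck o))) (gaml (KS v (Cc o))))
          (gaml (KS v (Cb o)))).r (FreeMonoid.ofList (Sw v (ro o [2, 3, 4, 1])))
          (FreeMonoid.ofList (Sw v (ro o [4, 2, 3, 1]))) :=
        FIC.le_sup_left _ _ _ _ ⟨c3, c2⟩
      have s3 : (FIC.sup (FIC.inf (gaml (KS v (Ck o))) (gaml (KS v (Cc o))))
          (gaml (KS v (Cb o)))).r (FreeMonoid.ofList (Sw v (ro o [4, 2, 3, 1])))
          (FreeMonoid.ofList (Sw v (ro o [4, 1, 2, 3]))) := FIC.le_sup_right _ _ _ _ c4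
      exact FIC.trans _ s1 (FIC.trans _ s2 s3)
    · refine ⟨c0 v, ro o [2, 4, 1, 3], rfl, bas_c0 v _ ?_, ck_s o⟩
      intro c
      rw [mem_ro]
      simp only [List.mem_cons, List.not_mem_nil, or_false]
      omega
  obtain ⟨w0, w1, hw, hb, hc⟩ := hP
  have e0 : 0 ∉ w0 := fun h' => zero_c0 v ((hb.m0 0).1 h')
  obtain ⟨rfl, rfl⟩ := split_unique (c0 v) w0 (ro o [4, 1, 2, 3]) w1 (zero_c0 v) e0 hw
  exact ck_t o hc

theorem pen (hCLS : ClsStmt) (hKPR : KprStmt) : PenStmt := by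
  intro β hβ hm v h hh h2
  constructor
  · by_contra hn
    exact key hCLS hKPR β hβ hm v h hh h2 false (by simpa using hn)
  · by_contra hn
    exact key hCLS hKPR β hβ hm v h hh h2 true (by simpa using hn)

end Pool.Agent.MWP.H36
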